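import Pool.Agent.Helper92.TG.GoalsX

/-!
# Project TG (MP_a41896_nt), packet TG-RATA: the formula at all points
-/

set_option autoImplicit false

open Polynomial

namespace Pool.Agent.Helper44.TG.RATA

open WeierstrassCurve
open Pool.Agent.Helper29.BL Pool.Agent.Helper42.SG
open Pool.Agent.Helper60.T3 (WL zd IP)
open Pool.Agent.Helper42.TG (Endo)
open Pool.Agent.Helper92.TG

noncomputable section

section val

variable {K Ω : Type} [Field K] [Field Ω] [Algebra K Ω] (V : ValuationSubring Ω)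
  (hK : ∀ c : K, algebraMap K Ω c ∈ V)

/-- the residue map -/
abbrev res : V →+* IsLocalRing.ResidueField V := IsLocalRing.residue V

theorem inv_mem_of_res (z : V) (h : res V z ≠ 0) : (z : Ω)⁻¹ ∈ V := by
  have hu : IsUnit z := (IsLocalRing.residue_ne_zero_iff_isUnit z).1 h
  obtain ⟨w, hw⟩ := hu.exists_right_inv
  have h1 : (z : Ω) * (w : Ω) = 1 := by
    rw [← Subring.coe_mul]
    exact congrArg Subtype.val hw
  rw [inv_eq_of_mul_eq_one_right h1]
  exact w.2

theorem res_eq (z w : V) (h : V.valuation ((z : Ω) - w) < 1) : res V z = res V w := by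
  have h1 : (z - w) ∈ IsLocalRing.maximalIdeal V := (V.valuation_lt_one_iff (z - w)).2 h
  rw [← sub_eq_zero, ← map_sub]
  exact (IsLocalRing.residue_eq_zero_iff _).2 h1

theorem mem_of_close (z : Ω) (w : V) (h : V.valuation (z - w) < 1) : z ∈ V := by
  have h1 : z - w ∈ V := (V.valuation_le_one_iff _).1 h.le
  have h2 := add_mem h1 w.2
  rwa [sub_add_cancel] at h2

/-- the map `K → V` -/
def iK : K →+* V := (algebraMap K Ω).codRestrict V hK

theorem coe_pev (p : K[X]) (z : V) : ((eval₂ (iK V hK) z p : V) : Ω) = aeval (z : Ω) p := by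
  show V.subtype (eval₂ (iK V hK) z p) = aeval (z : Ω) p
  rw [hom_eval₂]
  rfl

theorem res_pev (p : K[X]) (z w : V) (h : res V z = res V w) :
    res V (eval₂ (iK V hK) z p) = res V (eval₂ (iK V hK) w p) := by
  rw [hom_eval₂, hom_eval₂]
  show eval₂ _ (res V z) p = eval₂ _ (res V w) p
  rw [h]

include hK in
/-- the value of `A / B` at a pole is a pole -/
theorem pole (A B : K[X]) (hdeg : B.natDegree < A.natDegree) (s s' : Ω) (hs : s ∉ V)
    (h : s' * aeval s B = aeval s A) : s' ∉ V := by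
  intro hs'
  have hs0 : s ≠ 0 := by
    rintro rfl
    exact hs V.zero_mem
  have hw : s⁻¹ ∈ V := (V.mem_or_inv_mem s).resolve_left hs
  obtain ⟨w, hwd⟩ : ∃ w : V, (w : Ω) = s⁻¹ := ⟨⟨s⁻¹, hw⟩, rfl⟩
  have hw0 : res V w = 0 := by
    by_contra hne
    have h1 := inv_mem_of_res V w hne
    rw [hwd, inv_inv] at h1
    exact hs h1
  have hrev : ∀ p : K[X], aeval s p = ((eval₂ (iK V hK) w p.reverse : V) : Ω) * s ^ p.natDegree := by
    intro p
    rw [coe_pev, hwd]
    let _ : Invertible s := invertibleOfNonzero hs0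
    have h2 := eval₂_reverse_mul_pow (algebraMap K Ω) s p
    rw [aeval_def, aeval_def, ← h2, invOf_eq_inv]
  have hA : res V (eval₂ (iK V hK) w A.reverse) ≠ 0 := by
    rw [hom_eval₂]
    show eval₂ _ (res V w) A.reverse ≠ 0
    rw [hw0, eval₂_at_zero, coeff_zero_reverse, _root_.map_ne_zero]
    intro h3
    rw [leadingCoeff_eq_zero] at h3
    rw [h3] at hdeg
    simp at hdeg
  rw [hrev A, hrev B] at h
  have hne : A.natDegree - B.natDegree ≠ 0 := by omega
  have h4 : s' * ((eval₂ (iK V hK) w B.reverse : V) : Ω) * (w : Ω) ^ (A.natDegree - B.natDegree) =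
      ((eval₂ (iK V hK) w A.reverse : V) : Ω) := by
    have h5 : s ^ A.natDegree = s ^ B.natDegree * s ^ (A.natDegree - B.natDegree) := by
      rw [← pow_add]
      congr 1
      omega
    rw [h5] at h
    have h6 : s ^ B.natDegree ≠ 0 := pow_ne_zero _ hs0
    have h7 : s' * ((eval₂ (iK V hK) w B.reverse : V) : Ω) =
        ((eval₂ (iK V hK) w A.reverse : V) : Ω) * s ^ (A.natDegree - B.natDegree) := by
      apply mul_right_cancel₀ h6
      rw [mul_assoc, h]
      ring
    rw [h7, mul_assoc, hwd, ← mul_pow, mul_inv_cancel₀ hs0, one_pow, mul_one]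
  have h8 : (⟨s', hs'⟩ : V) * eval₂ (iK V hK) w B.reverse * w ^ (A.natDegree - B.natDegree) =
      eval₂ (iK V hK) w A.reverse := by
    apply Subtype.ext
    push_cast
    exact h4
  apply hA
  rw [← h8, map_mul, map_pow, hw0, zero_pow hne, mul_zero]

end val

theorem xc_mp {K F F' : Type} [Field K] [Field F] [DecidableEq F] [Algebra K F] [Field F']
    [DecidableEq F'] [Algebra K F'] {W : Affine K} (j : F →ₐ[K] F') (P : (WL F W).Point) :
    xc (mp j P) = j (xc P) := by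
  rcases P with _ | ⟨x, y, h⟩
  · exact (map_zero j).symm
  · rfl

theorem ps_mp {K F F' : Type} [Field K] [Field F] [DecidableEq F] [Algebra K F] [Field F']
    [DecidableEq F'] [Algebra K F'] {W : Affine K} (j : F →ₐ[K] F') (P : (WL F W).Point) :
    ps (mp j P) = j (ps P) := by
  rcases P with _ | ⟨x, y, h⟩
  · exact (map_zero j).symm
  · show 2 * j y + (WL F' W).a₁ * j x + (WL F' W).a₃ = j (2 * y + (WL F W).a₁ * x + (WL F W).a₃)
    rw [map_add, map_add, map_mul, map_mul, map_ofNat]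
    show _ = 2 * j y + j (algebraMap K F W.a₁) * j x + j (algebraMap K F W.a₃)
    rw [j.commutes, j.commutes]
    rfl

theorem t (hC : CONT) (hE : EXTS) : RATA := by
  classical
  intro K _ _ W hW ρ A B r hcop hdeg hGF F _ _ _ P hP
  haveI := hW
  obtain ⟨Ω, i1, i2, i3, j, V, Q, hj, hQ, hQt, hgen⟩ := hE K W hW F
  obtain ⟨P', hP'⟩ : ∃ P' : (WL Ω W).Point, P' = mp j P := ⟨_, rfl⟩
  have hK : ∀ c : K, algebraMap K Ω c ∈ V := by
    intro c
    rw [← j.commutes]
    exact hj _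
  have hkV : ∀ z ∈ j.fieldRange, z ∈ V := by
    rintro z ⟨c, rfl⟩
    exact hj c
  have hk0 : ∀ z : V, (z : Ω) ∈ j.fieldRange → res V z = 0 → (z : Ω) = 0 := by
    intro z hz h0
    by_contra hne
    have h1 : (z : Ω)⁻¹ ∈ V := hkV _ (inv_mem hz)
    have h2 : z * ⟨(z : Ω)⁻¹, h1⟩ = 1 := by
      apply Subtype.ext
      push_cast
      exact mul_inv_cancel₀ hne
    have h3 := congrArg (res V) h2
    rw [map_mul, h0, zero_mul, map_one] at h3
    exact zero_ne_one h3
  have hinj : Function.Injective (mp j : (WL F W).Point → (WL Ω W).Point) :=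
    Affine.Point.map_injective j
  have hmp0 : mp j (0 : (WL F W).Point) = 0 := map_zero _
  have hP'0 : P' ≠ 0 := by
    rw [hP', ← hmp0]
    exact fun h => hP (hinj h)
  have hIP : ∀ R : (WL F W).Point, IP (j.fieldRange : Set Ω) (mp j R) := by
    intro R
    right
    rw [xc_mp, ps_mp]
    exact ⟨⟨_, rfl⟩, ⟨_, rfl⟩⟩
  have hmem : ∀ c : F, j c ∈ j.fieldRange := fun c => ⟨c, rfl⟩
  -- the close point
  obtain ⟨hne1, hx1, hp1⟩ := hC K Ω W V j.fieldRange hkV P' Q hP'0 (hP' ▸ hIP P) hQ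
  have hgP : Transcendental K (xc (P' + Q)) := by
    rw [hP']
    exact hgen P
  obtain ⟨hr0, hr1, hr2⟩ := hGF Ω (P' + Q) hgP
  obtain ⟨-, hq1, -⟩ := hGF Ω Q hQt
  have hs' : xc (ρ.f Ω Q) ∉ V := pole V hK A B hdeg (xc Q) _ hQ hq1
  have hρP : ρ.f Ω P' = mp j (ρ.f F P) := by
    rw [hP']
    exact ρ.nat F Ω j P
  have hadd : ρ.f Ω (P' + Q) = ρ.f Ω P' + ρ.f Ω Q := map_add _ _ _
  have hxP : xc P' = j (xc P) := by
    rw [hP']
    exact xc_mp j P
  have hpP : ps P' = j (ps P) := by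
    rw [hP']
    exact ps_mp j P
  obtain ⟨x, hx⟩ : ∃ x : V, (x : Ω) = xc P' := ⟨⟨xc P', by rw [hxP]; exact hj _⟩, rfl⟩
  obtain ⟨p, hp⟩ : ∃ p : V, (p : Ω) = ps P' := ⟨⟨ps P', by rw [hpP]; exact hj _⟩, rfl⟩
  rw [← hx] at hx1
  rw [← hp] at hp1
  obtain ⟨T, hT⟩ : ∃ T : V, (T : Ω) = xc (P' + Q) := ⟨⟨_, mem_of_close V _ x hx1⟩, rfl⟩
  obtain ⟨U, hU⟩ : ∃ U : V, (U : Ω) = ps (P' + Q) := ⟨⟨_, mem_of_close V _ p hp1⟩, rfl⟩
  rw [← hT] at hx1 hr1 hr2
  rw [← hU] at hp1 hr2
  have hTx : res V T = res V x := res_eq V _ _ hx1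
  have hUp : res V U = res V p := res_eq V _ _ hp1
  have hjB : ∀ q : K[X], aeval (x : Ω) q = j (aeval (xc P) q) := by
    intro q
    rw [hx, hxP, aeval_algHom_apply]
  by_cases h0 : ρ.f F P = 0
  · have h2 : ρ.f Ω P' = 0 := by
      rw [hρP, h0, hmp0]
    rw [hadd, h2, zero_add] at hr1
    have hBT : res V (eval₂ (iK V hK) T B) = 0 := by
      by_contra hne
      have h3 := inv_mem_of_res V _ hne
      rw [coe_pev] at h3
      have h4 : aeval (T : Ω) B ≠ 0 := by
        intro h5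
        apply hne
        have h6 : eval₂ (iK V hK) T B = 0 := Subtype.ext ((coe_pev V hK B T).trans h5)
        rw [h6, map_zero]
      apply hs'
      have h7 : xc (ρ.f Ω Q) = aeval (T : Ω) A * (aeval (T : Ω) B)⁻¹ := by
        rw [← hr1, mul_assoc, mul_inv_cancel₀ h4, mul_one]
      rw [h7, ← coe_pev V hK A T]
      exact mul_mem (Subtype.prop _) h3
    have hBx : res V (eval₂ (iK V hK) x B) = 0 := by
      rw [← res_pev V hK B T x hTx]
      exact hBT
    have h8 := hk0 _ (by rw [coe_pev, hjB]; exact hmem _) hBx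
    rw [coe_pev, hjB, map_eq_zero] at h8
    exact ⟨⟨fun _ => h8, fun _ => h0⟩, fun h => absurd h0 h⟩
  · have h2 : ρ.f Ω P' ≠ 0 := by
      rw [hρP, ← hmp0]
      exact fun h => h0 (hinj h)
    obtain ⟨-, hx2, hp2⟩ := hC K Ω W V j.fieldRange hkV (ρ.f Ω P') (ρ.f Ω Q) h2
      (hρP ▸ hIP (ρ.f F P)) hs'
    rw [← hadd] at hx2 hp2
    have hxR : xc (ρ.f Ω P') = j (xc (ρ.f F P)) := by
      rw [hρP]
      exact xc_mp j _
    have hpR : ps (ρ.f Ω P') = j (ps (ρ.f F P)) := by
      rw [hρP]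
      exact ps_mp j _
    have hyV : xc (ρ.f Ω P') ∈ V := by
      rw [hxR]
      exact hj _
    have hqV : ps (ρ.f Ω P') ∈ V := by
      rw [hpR]
      exact hj _
    obtain ⟨y, hy⟩ : ∃ y : V, (y : Ω) = xc (ρ.f Ω P') := ⟨⟨_, hyV⟩, rfl⟩
    obtain ⟨q, hq⟩ : ∃ q : V, (q : Ω) = ps (ρ.f Ω P') := ⟨⟨_, hqV⟩, rfl⟩
    rw [← hy] at hx2
    rw [← hq] at hp2
    obtain ⟨Y, hY⟩ : ∃ Y : V, (Y : Ω) = xc (ρ.f Ω (P' + Q)) := ⟨⟨_, mem_of_close V _ y hx2⟩, rfl⟩
    obtain ⟨Z, hZ⟩ : ∃ Z : V, (Z : Ω) = ps (ρ.f Ω (P' + Q)) := ⟨⟨_, mem_of_close V _ q hp2⟩, rfl⟩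
    rw [← hY] at hx2 hr1
    rw [← hZ] at hp2 hr2
    have hYy : res V Y = res V y := res_eq V _ _ hx2
    have hZq : res V Z = res V q := res_eq V _ _ hp2
    have e1 : Y * eval₂ (iK V hK) T B = eval₂ (iK V hK) T A := by
      apply Subtype.ext
      push_cast
      rw [coe_pev, coe_pev]
      exact hr1
    have e2 : iK V hK r * Z * eval₂ (iK V hK) T B ^ 2 =
        eval₂ (iK V hK) T (derivative A * B - A * derivative B) * U := by
      apply Subtype.ext
      push_cast
      rw [coe_pev, coe_pev]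
      exact hr2
    have f1 : res V (y * eval₂ (iK V hK) x B - eval₂ (iK V hK) x A) = 0 := by
      rw [map_sub, map_mul, ← hYy, ← res_pev V hK B T x hTx, ← res_pev V hK A T x hTx, ← map_mul,
        e1, sub_self]
    have f2 : res V (iK V hK r * q * eval₂ (iK V hK) x B ^ 2 -
        eval₂ (iK V hK) x (derivative A * B - A * derivative B) * p) = 0 := by
      rw [map_sub, map_mul, map_mul, map_pow, map_mul, ← hZq, ← hUp,
        ← res_pev V hK B T x hTx, ← res_pev V hK (derivative A * B - A * derivative B) T x hTx,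
        ← map_pow, ← map_mul, ← map_mul, ← map_mul, e2, sub_self]
    have g1 := hk0 _ (by
      push_cast
      rw [coe_pev, coe_pev, hjB, hjB, hy, hxR]
      exact sub_mem (mul_mem (hmem _) (hmem _)) (hmem _)) f1
    have g2 := hk0 _ (by
      push_cast
      rw [coe_pev, coe_pev, hjB, hjB, hq, hpR, hp, hpP]
      refine sub_mem (mul_mem (mul_mem ?_ (hmem _)) (pow_mem (hmem _) 2))
        (mul_mem (hmem _) (hmem _))
      show algebraMap K Ω r ∈ j.fieldRange
      exact (j.fieldRange).algebraMap_mem r) f2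
    push_cast at g1 g2
    rw [coe_pev, coe_pev, hjB, hjB, hy, hxR, ← map_mul, ← map_sub, map_eq_zero, sub_eq_zero] at g1
    have hiK : ((iK V hK r : V) : Ω) = j (algebraMap K F r) := by
      rw [j.commutes]
      rfl
    rw [coe_pev, coe_pev, hjB, hjB, hq, hpR, hp, hpP, hiK, ← map_mul, ← map_pow, ← map_mul,
      ← map_mul, ← map_sub, map_eq_zero, sub_eq_zero] at g2
    refine ⟨⟨fun h => absurd h h0, fun h => ?_⟩, fun _ => ⟨g1, g2⟩⟩
    exfalso
    rw [h, mul_zero] at g1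
    obtain ⟨a, b, hab⟩ := hcop
    have h9 := congrArg (aeval (xc P)) hab
    rw [map_add, map_mul, map_mul, ← g1, h, mul_zero, mul_zero, add_zero, map_one] at h9
    exact zero_ne_one h9

end

end Pool.Agent.Helper44.TG.RATA
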